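import Pool.Agent.Q195.CSeg.Main

/-!
# MP_60620c_an: null unions of Cantor-direction segments whose doubles are large
-/

open MeasureTheory Q195.CSeg

namespace Pool.Agent.Results.MP_60620c_an.NullSegmentsLargeDoubles

/-- There are a set `S` of slopes in the middle-thirds Cantor set and, for each `s ∈ S`, a unit
segment of slope `s` (with midpoint `c s`) such that the union of the segments is Lebesgue null,
while the union of their doubles has positive Lebesgue measure. -/
theorem result : ∃ (S : Set ℝ) (c : ℝ → ℝ × ℝ), S ⊆ cantorSet ∧
    volume (⋃ s ∈ S, unitSegment (c s) s) = 0 ∧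
    0 < volume (⋃ s ∈ S, double (c s) (unitSegment (c s) s)) :=
  main

end Pool.Agent.Results.MP_60620c_an.NullSegmentsLargeDoubles
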